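import Pool.Agent.Helper99.ZB.Bridge

/-!
# Interface of the project EV: log-concavity for all long positive words
-/

set_option autoImplicit false

namespace Pool.Agent.Helper43.EV

open Polynomial Pool.Agent.Helper76.Conway.Top Pool.Agent.Helper99.ZB

/-- [C] determinant bounds for all words with full support, near the positive axis -/
def DB : Prop :=
  ∀ (n : ℕ) (Φ : ℝ), 0 < Φ → ∃ de : ℝ, 0 < de ∧ ∃ th : ℝ, 0 < th ∧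
    ∀ x y : ℝ, 0 < x → x ≤ Φ → |y| ≤ th → ∀ w : List ℕ, (∀ a ∈ w, a < n) → (∀ a < n, a ∈ w) →
      (de * x) ^ n ≤ ‖Matrix.det (1 - W (Complex.exp (-(x + y * Complex.I))) n w)‖ ∧
      ‖Matrix.det (1 - W (Complex.exp (-(x + y * Complex.I))) n w)‖ ≤ 2 ^ n

/-- [M] the tail bound from the Markov windows -/
def Tail {G : ℕ → Type} [∀ n, Group (G n)] (sg : ∀ n, ℕ → G n) (N : ∀ n, G n → ℤ[X]) : Prop :=
  ∀ (n : ℕ) (ρ0 ρ1 : ℝ), 0 < ρ0 → ∃ c : ℝ, 0 < c ∧ ∃ C : ℝ, 0 < C ∧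
    ∀ w : List ℕ, (∀ a ∈ w, a < n) → ∀ x θ : ℝ, ρ0 ≤ 2 * Real.sinh x → 2 * Real.sinh x ≤ ρ1 →
      ‖aeval (((2 * Real.sinh x : ℝ) : ℂ) * Complex.exp (θ / 2 * Complex.I)) (N n (V (sg n) w))‖ ≤
        C * Real.exp (-(c * w.length * (1 - Real.cos θ))) * Real.exp (w.length * x)

/-- [BR] the real polynomial in `t = z ^ 2` of a word with full support -/
structure Br (Q : ℤ[X]) (n L p : ℕ) (P : ℝ[X]) : Prop where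
  nn : ∀ j, 0 ≤ P.coeff j
  c0 : 1 ≤ P.coeff 0
  deg : 2 * P.natDegree + p + n = L
  low : p ≤ n
  ev : ∀ z : ℂ, aeval z Q = z ^ p * aeval (z ^ 2) P
  co : ∀ j, P.coeff j = ((Q.coeff (2 * j + p) : ℤ) : ℝ)
  van : ∀ i, Q.coeff i ≠ 0 → ∃ j, i = 2 * j + p

/-- the hypotheses of the analytic core for one polynomial -/
structure Dat (a : ℕ) (Φ th c C c4 : ℝ) (T1 T2 : ℝ → ℝ) (L : ℕ) (P : ℝ[X]) : Prop where
  nn : ∀ j, 0 ≤ P.coeff j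
  c0 : 1 ≤ P.coeff 0
  deg : 2 * P.natDegree ≤ L
  lo : ∀ x y : ℝ, 0 < x → x ≤ Φ → |y| ≤ th → c * x ^ a * Real.exp (L * x) ≤
    ‖aeval (4 * Complex.sinh (x + y * Complex.I) ^ 2) P‖
  up : ∀ x y : ℝ, 0 < x → x ≤ Φ → |y| ≤ th →
    ‖aeval (4 * Complex.sinh (x + y * Complex.I) ^ 2) P‖ ≤ C / x ^ a * Real.exp (L * x)
  tail : ∀ r0 : ℝ, 0 < r0 → ∀ r θ : ℝ, r0 ≤ r → r ≤ 4 * Real.sinh Φ ^ 2 →
    ‖aeval ((r : ℂ) * Complex.exp (θ * Complex.I)) P‖ ≤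
      T2 r0 * Real.exp (-(T1 r0 * L * (1 - Real.cos θ))) * P.eval r
  top : ∀ k : ℕ, (P.natDegree : ℝ) ≤ k + c4 * L →
    P.coeff (k - 1) * P.coeff (k + 1) ≤ P.coeff k ^ 2

/-- [CORE] the analytic core -/
def Core : Prop :=
  ∀ c4 : ℝ, 0 < c4 → ∃ Φ : ℝ, 0 < Φ ∧ ∀ (a : ℕ) (th c C : ℝ) (T1 T2 : ℝ → ℝ), 0 < th → 0 < c →
    0 < C → (∀ r, 0 < r → 0 < T1 r ∧ 0 < T2 r) → ∃ L0 : ℕ, ∀ L : ℕ, L0 ≤ L → ∀ P : ℝ[X],
      Dat a Φ th c C c4 T1 T2 L P → ∀ k, 1 ≤ k → P.coeff (k - 1) * P.coeff (k + 1) ≤ P.coeff k ^ 2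

end Pool.Agent.Helper43.EV
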