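import Pool.Agent.Helper43.EV.Plug

/-!
# From words to the Laurent polynomial; independence of the functional
-/

set_option autoImplicit false

namespace Pool.Agent.Helper43.EV

open Polynomial Pool.Agent.Helper76.Conway.Top Pool.Agent.Helper99.ZB

/-- log-concavity of every second coefficient, whatever the parity -/
theorem lc_of_br {Q : ℤ[X]} {n L p : ℕ} {P : ℝ[X]} (hP : Br Q n L p P)
    (h : ∀ k, 1 ≤ k → P.coeff (k - 1) * P.coeff (k + 1) ≤ P.coeff k ^ 2) (i : ℕ) :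
    Q.coeff (i + 4) * Q.coeff i ≤ Q.coeff (i + 2) ^ 2 := by
  by_cases h0 : Q.coeff i = 0
  · rw [h0, mul_zero]
    exact sq_nonneg _
  · obtain ⟨j, rfl⟩ := hP.van i h0
    have h1 := h (j + 1) (by omega)
    rw [hP.co, hP.co, hP.co] at h1
    have e1 : 2 * (j + 1 - 1) + p = 2 * j + p := by omega
    have e2 : 2 * (j + 1 + 1) + p = 2 * j + p + 4 := by omega
    have e3 : 2 * (j + 1) + p = 2 * j + p + 2 := by omega
    rw [e1, e2, e3] at h1
    have h2 : Q.coeff (2 * j + p) * Q.coeff (2 * j + p + 4) ≤ Q.coeff (2 * j + p + 2) ^ 2 := by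
      exact_mod_cast h1
    rw [mul_comm]
    exact h2

/-- two Markov functionals agree on positive words -/
theorem unique {G G' : ℕ → Type} [∀ n, Group (G n)] [∀ n, Group (G' n)] {sg : ∀ n, ℕ → G n}
    {sg' : ∀ n, ℕ → G' n} {N : ∀ n, G n → ℤ[X]} {N' : ∀ n, G' n → ℤ[X]} (h : Mk G sg N)
    (h' : Mk G' sg' N') (n : ℕ) (w : List ℕ) (hw : ∀ a ∈ w, a < n) :
    N n (V (sg n) w) = N' n (V (sg' n) w) := by
  have key : ∀ t : ℝ, 0 < t → t < 1 → aeval (((t⁻¹ - t : ℝ)) : ℂ) (N n (V (sg n) w)) =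
      aeval (((t⁻¹ - t : ℝ)) : ℂ) (N' n (V (sg' n) w)) := by
    intro t h0 h1
    have hs0 : (t : ℂ) ≠ 0 := by exact_mod_cast h0.ne'
    have hs1 : ‖(t : ℂ)‖ < 1 := by
      rw [Complex.norm_real, Real.norm_of_nonneg h0.le]
      exact h1
    have e1 := eval_eq h hs0 hs1 n w hw
    have e2 := eval_eq h' hs0 hs1 n w hw
    have h3 : (t : ℂ) ^ w.length * U (t : ℂ) n ≠ 0 :=
      mul_ne_zero (pow_ne_zero _ hs0) (U_ne_zero hs1 hs0 n)
    have e3 : (((t⁻¹ - t : ℝ)) : ℂ) = (t : ℂ)⁻¹ - t := by push_cast; rfl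
    rw [e3]
    apply mul_right_cancel₀ h3
    rw [← mul_assoc, ← mul_assoc, e1, e2]
  obtain ⟨D, hD⟩ : ∃ D, D = N n (V (sg n) w) - N' n (V (sg' n) w) := ⟨_, rfl⟩
  have hD0 : ∀ t : ℝ, 0 < t → t < 1 → (D.map (Int.castRingHom ℝ)).eval (t⁻¹ - t) = 0 := by
    intro t h0 h1
    have h2 := key t h0 h1
    have h3 : aeval (((t⁻¹ - t : ℝ)) : ℂ) D = 0 := by
      rw [hD, map_sub, h2, sub_self]
    have h4 : (((D.map (Int.castRingHom ℝ)).eval (t⁻¹ - t) : ℝ) : ℂ) =
        aeval (((t⁻¹ - t : ℝ)) : ℂ) D := by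
      rw [aeval_def, eval_map, ← Complex.ofRealHom_eq_coe, hom_eval₂]
      congr 1
    rw [h3] at h4
    exact_mod_cast h4
  have hinf : (D.map (Int.castRingHom ℝ)) = 0 := by
    apply Polynomial.eq_zero_of_infinite_isRoot
    have hinj : Set.InjOn (fun t : ℝ => t⁻¹ - t) (Set.Ioo 0 1) := by
      intro a ha b hb hab
      simp only at hab
      have ha0 : a ≠ 0 := ha.1.ne'
      have hb0 : b ≠ 0 := hb.1.ne'
      have h5 : (b - a) * (1 + a * b) = 0 := by
        field_simp at hab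
        nlinarith
      rcases mul_eq_zero.1 h5 with h6 | h6
      · linarith
      · have := mul_pos ha.1 hb.1
        linarith
    refine ((Set.Ioo_infinite (zero_lt_one (α := ℝ))).image hinj).mono ?_
    rintro _ ⟨t, ht, rfl⟩
    exact hD0 t ht.1 ht.2
  rw [Polynomial.map_eq_zero_iff (RingHom.injective_int _)] at hinf
  rw [hD] at hinf
  exact sub_eq_zero.1 hinf

end Pool.Agent.Helper43.EV
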