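import Mathlib
import Pool.Agent.Helper43.EV.Glue

/-!
# MP_ea8a26_gt: Q1 for all but finitely many positive braids of every braid index

The Conway polynomial is taken as a function on braids: a family `∇ n : Braid n → ℤ[X]`
(`Braid n` is the braid group on `n + 1` strands) that is invariant under conjugation and
stabilisation, satisfies the skein relation and is `1` on the trivial one-strand braid. By the
theorems of Alexander and Markov the Conway polynomial of the closure is such a family (and the only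
one).
-/

set_option autoImplicit false

namespace Pool.Agent.Results.MP_ea8a26_gt.LargeBraids

open Polynomial Pool.Agent.Helper76.Conway.Top Pool.Agent.Helper99.ZB Pool.Agent.Helper43.EV

/-- Artin's relations for the braid group on `n + 1` strands; generators are indexed by `Fin n`. -/
def artinRels (n : ℕ) : Set (FreeGroup (Fin n)) :=
  {r | ∃ i j : Fin n, (i : ℕ) + 1 = (j : ℕ) ∧
      r = FreeGroup.of i * FreeGroup.of j * FreeGroup.of i *
        (FreeGroup.of j * FreeGroup.of i * FreeGroup.of j)⁻¹} ∪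
  {r | ∃ i j : Fin n, (i : ℕ) + 2 ≤ (j : ℕ) ∧
      r = FreeGroup.of i * FreeGroup.of j * (FreeGroup.of j * FreeGroup.of i)⁻¹}

/-- The braid group on `n + 1` strands. -/
abbrev Braid (n : ℕ) : Type := PresentedGroup (artinRels n)

/-- The Artin generators: a single crossing between strands `i` and `i + 1`. -/
def σ {n : ℕ} (i : Fin n) : Braid n := PresentedGroup.of i

theorem σ_braid {n : ℕ} {i j : Fin n} (h : (i : ℕ) + 1 = (j : ℕ)) :
    (σ i * σ j * σ i : Braid n) = σ j * σ i * σ j :=
  PresentedGroup.mk_eq_mk_of_mul_inv_mem (rels := artinRels n)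
    (x := FreeGroup.of i * FreeGroup.of j * FreeGroup.of i)
    (y := FreeGroup.of j * FreeGroup.of i * FreeGroup.of j) (Or.inl ⟨i, j, h, rfl⟩)

theorem σ_comm {n : ℕ} {i j : Fin n} (h : (i : ℕ) + 2 ≤ (j : ℕ)) :
    (σ i * σ j : Braid n) = σ j * σ i :=
  PresentedGroup.mk_eq_mk_of_mul_inv_mem (rels := artinRels n)
    (x := FreeGroup.of i * FreeGroup.of j)
    (y := FreeGroup.of j * FreeGroup.of i) (Or.inr ⟨i, j, h, rfl⟩)

/-- Adding one strand on the right. -/
def incl (n : ℕ) : Braid n →* Braid (n + 1) :=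
  PresentedGroup.toGroup (f := fun i : Fin n => (σ i.castSucc : Braid (n + 1))) (by
    rintro r (⟨i, j, h, rfl⟩ | ⟨i, j, h, rfl⟩)
    · simp only [map_mul, map_inv, FreeGroup.lift_apply_of]
      rw [mul_inv_eq_one]
      exact σ_braid (by simpa using h)
    · simp only [map_mul, map_inv, FreeGroup.lift_apply_of]
      rw [mul_inv_eq_one]
      exact σ_comm (by simpa using h))

/-- The permutation of the endpoints of the strands. -/
def perm (n : ℕ) : Braid n →* Equiv.Perm (Fin (n + 1)) :=
  PresentedGroup.toGroup (f := fun i : Fin n => Equiv.swap i.castSucc i.succ) (by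
    rintro r (⟨i, j, h, rfl⟩ | ⟨i, j, h, rfl⟩)
    · simp only [map_mul, map_inv, FreeGroup.lift_apply_of]
      rw [mul_inv_eq_one]
      have e : j.castSucc = i.succ := Fin.ext (by simpa using h.symm)
      have h1 : i.castSucc ≠ i.succ := Fin.ne_of_val_ne (by simp)
      have h2 : i.castSucc ≠ j.succ := Fin.ne_of_val_ne (by simp; omega)
      have h3 : j.succ ≠ i.succ := Fin.ne_of_val_ne (by simp; omega)
      rw [e, Equiv.swap_mul_swap_mul_swap h1 h2]
      rw [Equiv.swap_comm i.castSucc i.succ, Equiv.swap_comm i.succ j.succ,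
        Equiv.swap_mul_swap_mul_swap h3 h2.symm, Equiv.swap_comm]
    · simp only [map_mul, map_inv, FreeGroup.lift_apply_of]
      rw [mul_inv_eq_one]
      apply Equiv.Perm.Disjoint.commute
      rw [Equiv.Perm.disjoint_iff_disjoint_support]
      rw [Equiv.Perm.support_swap, Equiv.Perm.support_swap]
      · simp only [Finset.disjoint_insert_right, Finset.disjoint_singleton_right,
          Finset.mem_insert, Finset.mem_singleton, Fin.ext_iff, Fin.val_castSucc, Fin.val_succ]
        omega
      · exact Fin.ne_of_val_ne (by simp)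
      · exact Fin.ne_of_val_ne (by simp))

/-- The number of components of the closure of a braid: the number of cycles (fixed points
included) of its permutation. -/
noncomputable def numComponents {n : ℕ} (β : Braid n) : ℕ :=
  Nat.card (Quotient (Equiv.Perm.SameCycle.setoid (perm n β)))

/-- The Conway polynomial as a function of braids. -/
structure IsConwayPolynomial (nabla : ∀ n, Braid n → ℤ[X]) : Prop where
  /-- value on the unknot -/
  unknot : nabla 0 1 = 1
  /-- first Markov move -/
  conj : ∀ (n : ℕ) (a b : Braid n), nabla n (a * b) = nabla n (b * a)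
  /-- second Markov move, positive stabilisation -/
  stab : ∀ (n : ℕ) (b : Braid n), nabla (n + 1) (incl n b * σ (Fin.last n)) = nabla n b
  /-- second Markov move, negative stabilisation -/
  stab_inv : ∀ (n : ℕ) (b : Braid n), nabla (n + 1) (incl n b * (σ (Fin.last n))⁻¹) = nabla n b
  /-- skein relation `∇(K₊) - ∇(K₋) = z ∇(K₀)` -/
  skein : ∀ (n : ℕ) (a b : Braid n) (i : Fin n),
    nabla n (a * σ i * b) - nabla n (a * (σ i)⁻¹ * b) = X * nabla n (a * b)

/-- The braid is positive: a product of generators. -/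
def IsPositive {n : ℕ} (β : Braid n) : Prop :=
  β ∈ Submonoid.closure (Set.range (σ : Fin n → Braid n))

/-- The coefficient `a_k = c_{2k+m-1}` of the Laurent polynomial `t^{(1-m)/2} P(√t)`, where
`P = ∑ c_j z^j` and `m` is the number of components. -/
noncomputable def coeffX (P : ℤ[X]) (m : ℕ) (k : ℤ) : ℤ :=
  if 0 ≤ 2 * k + m - 1 then P.coeff (2 * k + m - 1).toNat else 0

/-- The braid given by a word in the generators. -/
def ofWord {n : ℕ} (w : List (Fin n)) : Braid n := (w.map σ).prod


/-- The inequality `a_k ^ 2 ≥ a_{k+1} a_{k-1}` for all integers `k`, for the closure of `β`. -/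
def LogConcave (nabla : ∀ n, Braid n → ℤ[X]) {n : ℕ} (β : Braid n) : Prop :=
  ∀ k : ℤ, coeffX (nabla n β) (numComponents β) (k + 1) *
    coeffX (nabla n β) (numComponents β) (k - 1) ≤ coeffX (nabla n β) (numComponents β) k ^ 2

section proof

/-- generators indexed by natural numbers -/
def gen (n a : ℕ) : Braid n := if h : a < n then σ ⟨a, h⟩ else 1

theorem gen_of {n a : ℕ} (h : a < n) : gen n a = σ ⟨a, h⟩ := dif_pos h

theorem V_gen {n : ℕ} (w : List (Fin n)) : V (gen n) (w.map Fin.val) = ofWord w := by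
  unfold V ofWord
  rw [List.map_map]
  congr 1
  apply List.map_congr_left
  intro i _
  exact gen_of i.2

theorem incl_V {n : ℕ} {u : List ℕ} (hu : ∀ a ∈ u, a < n) :
    incl n (V (gen n) u) = V (gen (n + 1)) u := by
  induction u with
  | nil => exact map_one _
  | cons a u ih =>
    have ha := hu a (by simp)
    rw [V_cons, V_cons, map_mul, ih fun b hb => hu b (List.mem_cons_of_mem _ hb), gen_of ha,
      gen_of (Nat.lt_succ_of_lt ha)]
    congr 1

theorem mk {nabla : ∀ n, Braid n → ℤ[X]} (h : IsConwayPolynomial nabla) :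
    Mk Braid gen nabla where
  braid n j hj := by
    rw [gen_of hj, gen_of (Nat.lt_of_succ_lt hj)]
    exact σ_braid rfl
  comm n a b hab hb := by
    rw [gen_of hb, gen_of (by omega)]
    exact σ_comm hab
  one := h.unknot
  conj := h.conj
  skein n g i k hi := by
    rw [gen_of hi]
    exact h.skein n g k ⟨i, hi⟩
  stab n u hu := by
    rw [← incl_V hu, gen_of (Nat.lt_succ_self n)]
    exact h.stab n _
  stab_inv n u hu := by
    rw [← incl_V hu, gen_of (Nat.lt_succ_self n)]
    exact h.stab_inv n _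

section conway

variable {nabla : ∀ n, Braid n → ℤ[X]} (h : IsConwayPolynomial nabla)

include h

theorem zero_of_notMem {n : ℕ} (w : List (Fin n)) (i : Fin n) (hi : i ∉ w) :
    nabla n (ofWord w) = 0 := by
  rw [← V_gen]
  refine (mk h).zero_of_missing n _ ?_ i i.2 ?_
  · intro a ha
    obtain ⟨j, _, rfl⟩ := List.mem_map.1 ha
    exact j.2
  · intro h1
    obtain ⟨j, hj, hij⟩ := List.mem_map.1 h1
    exact hi (Fin.val_injective hij ▸ hj)

end conway

theorem exists_word {n : ℕ} {β : Braid n} (hβ : IsPositive β) :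
    ∃ w : List (Fin n), β = ofWord w := by
  unfold IsPositive at hβ
  induction hβ using Submonoid.closure_induction with
  | mem x hx =>
    obtain ⟨i, rfl⟩ := hx
    exact ⟨[i], by simp [ofWord]⟩
  | one => exact ⟨[], rfl⟩
  | mul x y _ _ hx hy =>
    obtain ⟨u, rfl⟩ := hx
    obtain ⟨v, rfl⟩ := hy
    exact ⟨u ++ v, by simp [ofWord]⟩


theorem lc_int {Q : ℤ[X]} (hQ : ∀ i : ℕ, Q.coeff (i + 4) * Q.coeff i ≤ Q.coeff (i + 2) ^ 2)
    (m : ℕ) (k : ℤ) : coeffX Q m (k + 1) * coeffX Q m (k - 1) ≤ coeffX Q m k ^ 2 := by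
  by_cases h1 : 0 ≤ 2 * (k - 1) + m - 1
  · obtain ⟨i, hi⟩ : ∃ i : ℕ, 2 * (k - 1) + m - 1 = i := Int.eq_ofNat_of_zero_le h1
    have e1 : coeffX Q m (k - 1) = Q.coeff i := by
      unfold coeffX
      rw [if_pos h1, hi, Int.toNat_natCast]
    have e2 : coeffX Q m k = Q.coeff (i + 2) := by
      unfold coeffX
      rw [if_pos (by omega)]
      congr 1
      omega
    have e3 : coeffX Q m (k + 1) = Q.coeff (i + 4) := by
      unfold coeffX
      rw [if_pos (by omega)]
      congr 1
      omega
    rw [e1, e2, e3]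
    exact hQ i
  · have e1 : coeffX Q m (k - 1) = 0 := by
      unfold coeffX
      rw [if_neg h1]
    rw [e1, mul_zero]
    exact sq_nonneg _

/-- from words over the natural numbers to braids, for a fixed functional -/
theorem long_words {nabla : ∀ n, Braid n → ℤ[X]} (h : IsConwayPolynomial nabla) {n m0 : ℕ}
    (hw : ∀ w : List ℕ, m0 ≤ w.length → (∀ a ∈ w, a < n) → (∀ a < n, a ∈ w) →
      ∃ (p : ℕ) (P : ℝ[X]), Br (nabla n (V (gen n) w)) n w.length p P ∧
        ∀ k, 1 ≤ k → P.coeff (k - 1) * P.coeff (k + 1) ≤ P.coeff k ^ 2)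
    (w : List (Fin n)) (hm : m0 ≤ w.length) : LogConcave nabla (ofWord w) := by
  intro k
  by_cases hf : ∀ i, i ∈ w
  · obtain ⟨p, P, hP, hk⟩ := hw (w.map Fin.val) (by rwa [List.length_map]) (by
      intro a ha
      obtain ⟨j, _, rfl⟩ := List.mem_map.1 ha
      exact j.2) (by
      intro a ha
      exact List.mem_map.2 ⟨⟨a, ha⟩, hf _, rfl⟩)
    rw [V_gen] at hP
    exact lc_int (lc_of_br hP hk) _ k
  · push Not at hf
    obtain ⟨i, hi⟩ := hf
    rw [zero_of_notMem h w i hi]
    unfold coeffX
    simp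

theorem final (n : ℕ) (hw : ∀ nabla : ∀ n, Braid n → ℤ[X], IsConwayPolynomial nabla →
    ∃ m0 : ℕ, ∀ w : List ℕ, m0 ≤ w.length → (∀ a ∈ w, a < n) → (∀ a < n, a ∈ w) →
      ∃ (p : ℕ) (P : ℝ[X]), Br (nabla n (V (gen n) w)) n w.length p P ∧
        ∀ k, 1 ≤ k → P.coeff (k - 1) * P.coeff (k + 1) ≤ P.coeff k ^ 2) :
    (∃ m0 : ℕ, ∀ nabla : ∀ n, Braid n → ℤ[X], IsConwayPolynomial nabla →
      ∀ w : List (Fin n), m0 ≤ w.length → LogConcave nabla (ofWord w)) ∧
    {β : Braid n | IsPositive β ∧ ∃ nabla : ∀ n, Braid n → ℤ[X],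
      IsConwayPolynomial nabla ∧ ¬ LogConcave nabla β}.Finite := by
  have h1 : ∃ m0 : ℕ, ∀ nabla : ∀ n, Braid n → ℤ[X], IsConwayPolynomial nabla →
      ∀ w : List (Fin n), m0 ≤ w.length → LogConcave nabla (ofWord w) := by
    by_cases hex : ∃ nabla : ∀ n, Braid n → ℤ[X], IsConwayPolynomial nabla
    · obtain ⟨nabla, h⟩ := hex
      obtain ⟨m0, hm0⟩ := hw nabla h
      refine ⟨m0, fun nabla' h' w hm => ?_⟩
      have h2 := long_words h hm0 w hm
      have h3 : nabla' n (ofWord w) = nabla n (ofWord w) := by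
        rw [← V_gen]
        refine unique (mk h') (mk h) n _ ?_
        intro a ha
        obtain ⟨j, _, rfl⟩ := List.mem_map.1 ha
        exact j.2
      unfold LogConcave at h2 ⊢
      rw [h3]
      exact h2
    · exact ⟨0, fun nabla h => absurd ⟨nabla, h⟩ hex⟩
  refine ⟨h1, ?_⟩
  obtain ⟨m0, hm0⟩ := h1
  refine Set.Finite.subset ((List.finite_length_lt (Fin n) m0).image ofWord) ?_
  rintro β ⟨hβ, nabla, h, hlc⟩
  obtain ⟨w, rfl⟩ := exists_word hβ
  refine ⟨w, ?_, rfl⟩
  by_contra hlen
  exact hlc (hm0 nabla h w (not_lt.1 hlen))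

end proof

end Pool.Agent.Results.MP_ea8a26_gt.LargeBraids
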