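import Pool.Agent.Helper43.EV.Iface

/-!
# Plugs of the project EV (statements)
-/

set_option autoImplicit false

namespace Pool.Agent.Helper43.EV

open Polynomial Pool.Agent.Helper76.Conway.Top Pool.Agent.Helper99.ZB

/-- [BR] helper57 -/
def PBr {G : ℕ → Type} [∀ n, Group (G n)] (sg : ∀ n, ℕ → G n) (N : ∀ n, G n → ℤ[X]) : Prop :=
  ∀ (n : ℕ) (w : List ℕ), (∀ a ∈ w, a < n) → (∀ a < n, a ∈ w) →
    ∃ (p : ℕ) (P : ℝ[X]), Br (N n (V (sg n) w)) n w.length p P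

/-- [H1] helper74: from `DB` and `eval_eq` -/
def PH1 {G : ℕ → Type} [∀ n, Group (G n)] (sg : ∀ n, ℕ → G n) (N : ∀ n, G n → ℤ[X]) : Prop :=
  ∀ (n : ℕ) (Φ : ℝ), 0 < Φ → ∃ th : ℝ, 0 < th ∧ ∃ c : ℝ, 0 < c ∧ ∃ C : ℝ, 0 < C ∧
    ∀ w : List ℕ, (∀ a ∈ w, a < n) → (∀ a < n, a ∈ w) → ∀ (p : ℕ) (P : ℝ[X]),
      Br (N n (V (sg n) w)) n w.length p P → ∀ x y : ℝ, 0 < x → x ≤ Φ → |y| ≤ th →
        c * x ^ n * Real.exp (w.length * x) ≤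
          ‖aeval (4 * Complex.sinh (x + y * Complex.I) ^ 2) P‖ ∧
        ‖aeval (4 * Complex.sinh (x + y * Complex.I) ^ 2) P‖ ≤
          C / x ^ n * Real.exp (w.length * x)

/-- [H3] helper35: from `Tail` and `PH1` -/
def PH3 {G : ℕ → Type} [∀ n, Group (G n)] (sg : ∀ n, ℕ → G n) (N : ∀ n, G n → ℤ[X]) : Prop :=
  ∀ (n : ℕ) (Φ : ℝ), 0 < Φ → ∃ T1 T2 : ℝ → ℝ, (∀ r, 0 < r → 0 < T1 r ∧ 0 < T2 r) ∧
    ∀ w : List ℕ, (∀ a ∈ w, a < n) → (∀ a < n, a ∈ w) → ∀ (p : ℕ) (P : ℝ[X]),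
      Br (N n (V (sg n) w)) n w.length p P →
        ∀ r0 : ℝ, 0 < r0 → ∀ r θ : ℝ, r0 ≤ r → r ≤ 4 * Real.sinh Φ ^ 2 →
          ‖aeval ((r : ℂ) * Complex.exp (θ * Complex.I)) P‖ ≤
            T2 r0 * Real.exp (-(T1 r0 * w.length * (1 - Real.cos θ))) * P.eval r

/-- [H4] helper57: from `logConcave_top` -/
def PH4 {G : ℕ → Type} [∀ n, Group (G n)] (sg : ∀ n, ℕ → G n) (N : ∀ n, G n → ℤ[X]) : Prop :=
  ∀ n : ℕ, ∃ L1 : ℕ, ∀ w : List ℕ, L1 ≤ w.length → (∀ a ∈ w, a < n) → (∀ a < n, a ∈ w) →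
    ∀ (p : ℕ) (P : ℝ[X]), Br (N n (V (sg n) w)) n w.length p P →
      ∀ k : ℕ, (P.natDegree : ℝ) ≤ k + 1 / 66 * w.length →
        P.coeff (k - 1) * P.coeff (k + 1) ≤ P.coeff k ^ 2

/-- the final statement for words -/
theorem words {G : ℕ → Type} [∀ n, Group (G n)] {sg : ∀ n, ℕ → G n} {N : ∀ n, G n → ℤ[X]}
    (hBr : PBr sg N) (h1 : PH1 sg N) (h3 : PH3 sg N) (h4 : PH4 sg N) (hcore : Core) (n : ℕ) :
    ∃ m0 : ℕ, ∀ w : List ℕ, m0 ≤ w.length → (∀ a ∈ w, a < n) → (∀ a < n, a ∈ w) →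
      ∃ (p : ℕ) (P : ℝ[X]), Br (N n (V (sg n) w)) n w.length p P ∧
        ∀ k, 1 ≤ k → P.coeff (k - 1) * P.coeff (k + 1) ≤ P.coeff k ^ 2 := by
  obtain ⟨Φ, hΦ, hc⟩ := hcore (1 / 66) (by norm_num)
  obtain ⟨th, hth, c, hc0, C, hC0, H1⟩ := h1 n Φ hΦ
  obtain ⟨T1, T2, hT, H3⟩ := h3 n Φ hΦ
  obtain ⟨L1, H4⟩ := h4 n
  obtain ⟨L0, H0⟩ := hc n th c C T1 T2 hth hc0 hC0 hT
  refine ⟨max L0 L1, fun w hm hw hf => ?_⟩
  obtain ⟨p, P, hP⟩ := hBr n w hw hf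
  refine ⟨p, P, hP, ?_⟩
  refine H0 w.length ((le_max_left _ _).trans hm) P ?_
  exact
    { nn := hP.nn
      c0 := hP.c0
      deg := by have := hP.deg; omega
      lo := fun x y hx hxΦ hy => (H1 w hw hf p P hP x y hx hxΦ hy).1
      up := fun x y hx hxΦ hy => (H1 w hw hf p P hP x y hx hxΦ hy).2
      tail := H3 w hw hf p P hP
      top := H4 w ((le_max_right _ _).trans hm) hw hf p P hP }

end Pool.Agent.Helper43.EV
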