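import Pool.Agent.Helper43.EV.Plug
import Pool.Agent.Helper3.EVC.Defs

/-!
# From helper3's analytic core to words
-/

set_option autoImplicit false

namespace Pool.Agent.Helper43.EV

open Polynomial Pool.Agent.Helper76.Conway.Top Pool.Agent.Helper99.ZB

/-- the statement of `EVC.core` -/
def CoreFam : Prop :=
  ∀ Fam : ℕ → Set ℝ[X], (∀ L, ∀ P ∈ Fam L, EVC.Nice L P) →
    (∀ Φ : ℝ, 0 < Φ → ∃ th0 : ℝ, 0 < th0 ∧ ∃ (a : ℕ) (c : ℝ), 0 < c ∧ ∃ C : ℝ, 0 < C ∧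
      ∀ L, ∀ P ∈ Fam L, EVC.H1 a c C Φ th0 L P) →
    (∀ r0 R : ℝ, 0 < r0 → ∃ c : ℝ, 0 < c ∧ ∃ C : ℝ, ∀ L, ∀ P ∈ Fam L, EVC.H3 c C r0 R L P) →
    (∃ c : ℝ, 0 < c ∧ ∃ L1 : ℕ, ∀ L, L1 ≤ L → ∀ P ∈ Fam L, ∀ k : ℕ, 1 ≤ k →
      (P.natDegree : ℝ) ≤ k + c * L → P.coeff (k - 1) * P.coeff (k + 1) ≤ P.coeff k ^ 2) →
    ∃ L0 : ℕ, ∀ L, L0 ≤ L → ∀ P ∈ Fam L, ∀ k : ℕ, 1 ≤ k →
      P.coeff (k - 1) * P.coeff (k + 1) ≤ P.coeff k ^ 2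

theorem one_sub_cos_ge {θ : ℝ} (h : |θ| ≤ Real.pi) :
    2 / Real.pi ^ 2 * θ ^ 2 ≤ 1 - Real.cos θ := by
  have := Real.cos_le_one_sub_mul_cos_sq h
  linarith

/-- the final statement for words, from the core for families -/
theorem words_fam {G : ℕ → Type} [∀ n, Group (G n)] {sg : ∀ n, ℕ → G n} {N : ∀ n, G n → ℤ[X]}
    (hBr : PBr sg N) (h1 : PH1 sg N) (h3 : PH3 sg N) (h4 : PH4 sg N) (hcore : CoreFam) (n : ℕ) :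
    ∃ m0 : ℕ, ∀ w : List ℕ, m0 ≤ w.length → (∀ a ∈ w, a < n) → (∀ a < n, a ∈ w) →
      ∃ (p : ℕ) (P : ℝ[X]), Br (N n (V (sg n) w)) n w.length p P ∧
        ∀ k, 1 ≤ k → P.coeff (k - 1) * P.coeff (k + 1) ≤ P.coeff k ^ 2 := by
  obtain ⟨Fam, hFam⟩ : ∃ Fam : ℕ → Set ℝ[X], Fam = fun L => {P | ∃ w : List ℕ, w.length = L ∧
    (∀ a ∈ w, a < n) ∧ (∀ a < n, a ∈ w) ∧ ∃ p : ℕ, Br (N n (V (sg n) w)) n w.length p P} :=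
    ⟨_, rfl⟩
  have mem : ∀ L P, P ∈ Fam L ↔ ∃ w : List ℕ, w.length = L ∧
    (∀ a ∈ w, a < n) ∧ (∀ a < n, a ∈ w) ∧ ∃ p : ℕ, Br (N n (V (sg n) w)) n w.length p P := by
    intro L P
    rw [hFam]
    rfl
  have c1 : ∀ L, ∀ P ∈ Fam L, EVC.Nice L P := by
    intro L P hPL
    obtain ⟨w, hL, hw, hf, p, hP⟩ := (mem L P).1 hPL
    exact ⟨hP.nn, hP.c0, by have := hP.deg; omega⟩
  have c2 : ∀ Φ : ℝ, 0 < Φ → ∃ th0 : ℝ, 0 < th0 ∧ ∃ (a : ℕ) (c : ℝ), 0 < c ∧ ∃ C : ℝ, 0 < C ∧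
      ∀ L, ∀ P ∈ Fam L, EVC.H1 a c C Φ th0 L P := by
    intro Φ hΦ
    obtain ⟨th, hth, c, hc, C, hC, H1⟩ := h1 n Φ hΦ
    refine ⟨th, hth, n, c, hc, C, hC, ?_⟩
    intro L P hPL x y hx hxΦ hy
    obtain ⟨w, rfl, hw, hf, p, hP⟩ := (mem L P).1 hPL
    have h2 := H1 w hw hf p P hP x y hx hxΦ hy
    unfold EVC.T
    rw [← div_eq_mul_inv]
    exact h2
  have c3 : ∀ r0 R : ℝ, 0 < r0 → ∃ c : ℝ, 0 < c ∧ ∃ C : ℝ, ∀ L, ∀ P ∈ Fam L,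
      EVC.H3 c C r0 R L P := by
    intro r0 R hr0
    obtain ⟨Φ, hΦ, hR⟩ : ∃ Φ : ℝ, 0 < Φ ∧ R ≤ 4 * Real.sinh Φ ^ 2 := by
      refine ⟨max 1 R, lt_max_of_lt_left one_pos, ?_⟩
      have h5 : max 1 R ≤ Real.sinh (max 1 R) :=
        Real.self_le_sinh_iff.2 ((zero_le_one).trans (le_max_left _ _))
      have h6 : (1 : ℝ) ≤ max 1 R := le_max_left _ _
      have h7 : R ≤ max 1 R := le_max_right _ _
      nlinarith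
    obtain ⟨T1, T2, hT, H3⟩ := h3 n Φ hΦ
    have hpi := Real.pi_pos
    refine ⟨T1 r0 * (2 / Real.pi ^ 2), mul_pos (hT r0 hr0).1 (by positivity), T2 r0, ?_⟩
    intro L P hPL r θ hr hrR hθ
    obtain ⟨w, rfl, hw, hf, p, hP⟩ := (mem L P).1 hPL
    have h5 := H3 w hw hf p P hP r0 hr0 r θ hr (hrR.trans hR)
    unfold EVC.pt
    refine h5.trans ?_
    have hPr : 0 ≤ P.eval r := by
      rw [eval_eq_sum_range]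
      exact Finset.sum_nonneg fun i _ => mul_nonneg (hP.nn i) (pow_nonneg (hr0.le.trans hr) _)
    refine mul_le_mul_of_nonneg_right ?_ hPr
    refine mul_le_mul_of_nonneg_left ?_ (hT r0 hr0).2.le
    apply Real.exp_le_exp.2
    have h6 := mul_le_mul_of_nonneg_left (one_sub_cos_ge hθ)
      (mul_nonneg (hT r0 hr0).1.le (Nat.cast_nonneg w.length))
    nlinarith
  have c4 : ∃ c : ℝ, 0 < c ∧ ∃ L1 : ℕ, ∀ L, L1 ≤ L → ∀ P ∈ Fam L, ∀ k : ℕ, 1 ≤ k →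
      (P.natDegree : ℝ) ≤ k + c * L → P.coeff (k - 1) * P.coeff (k + 1) ≤ P.coeff k ^ 2 := by
    obtain ⟨L1, H4⟩ := h4 n
    refine ⟨1 / 66, by norm_num, L1, ?_⟩
    intro L hL P hPL k _ hk
    obtain ⟨w, rfl, hw, hf, p, hP⟩ := (mem L P).1 hPL
    exact H4 w hL hw hf p P hP k hk
  obtain ⟨L0, H⟩ := hcore Fam c1 c2 c3 c4
  refine ⟨L0, fun w hm hw hf => ?_⟩
  obtain ⟨p, P, hP⟩ := hBr n w hw hf
  exact ⟨p, P, hP, H w.length hm P ((mem _ _).2 ⟨w, rfl, hw, hf, p, hP⟩)⟩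

end Pool.Agent.Helper43.EV
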